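import Mathlib

set_option autoImplicit false

/-! Potentials on walks: the deterministic part of the lower bound for densities close to `1/2`. -/

namespace Pool.Agent.Lib.MP_cecf76_co.Half

open Finset Classical

variable {V : Type*} [Fintype V] {n : ℕ}

/-- Endpoints of the walks of length `k` starting at `v`. -/
noncomputable def N (adj : V → V → Prop) : ℕ → V → Finset V
  | 0, v => {v}
  | k + 1, v => univ.filter (fun y => ∃ w, adj v w ∧ y ∈ N adj k w)

/-- The standard bilinear form. -/
noncomputable def dot (g a : Fin n → ℝ) : ℝ := ∑ i, g i * a i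

/-- The difference of the sign vector of `v` and `(-1)^k` times that of `y`. -/
noncomputable def dif (u : V → Fin n → ℝ) (k : ℕ) (v y : V) : Fin n → ℝ :=
  fun i => u v i - (-1) ^ k * u y i

/-- The potential. -/
noncomputable def Z (adj : V → V → Prop) (u : V → Fin n → ℝ) (lam : ℝ) (k : ℕ) (v : V)
    (g : Fin n → ℝ) : ℝ :=
  ∑ y ∈ N adj k v, Real.exp (lam * dot g (dif u k v y))

lemma dot_add_left (g h a : Fin n → ℝ) : dot (g + h) a = dot g a + dot h a := by
  simp [dot, add_mul, sum_add_distrib]

lemma dot_add_right (g a b : Fin n → ℝ) : dot g (a + b) = dot g a + dot g b := by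
  simp [dot, mul_add, sum_add_distrib]

lemma dot_neg_left (g a : Fin n → ℝ) : dot (-g) a = -dot g a := by
  simp [dot]

lemma dot_smul_left (c : ℝ) (g a : Fin n → ℝ) : dot (c • g) a = c * dot g a := by
  simp [dot, mul_sum, mul_assoc]

section

variable {adj : V → V → Prop} {u : V → Fin n → ℝ} {d lam : ℝ}

lemma dif_vals (hu : ∀ v i, u v i = 1 ∨ u v i = -1) (k : ℕ) (v y : V) (i : Fin n) :
    (dif u k v y i) ^ 2 = (if u v i ≠ (-1) ^ k * u y i then 4 else 0) ∧
    u v i * dif u k v y i = (if u v i ≠ (-1) ^ k * u y i then 2 else 0) := by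
  have hk : ((-1 : ℝ)) ^ k = 1 ∨ ((-1 : ℝ)) ^ k = -1 := neg_one_pow_eq_or ℝ k
  unfold dif
  rcases hk with hk | hk <;> rcases hu v i with h1 | h1 <;> rcases hu y i with h2 | h2 <;>
    simp only [hk, h1, h2] <;> norm_num

lemma N_diff (hu : ∀ v i, u v i = 1 ∨ u v i = -1)
    (hD : ∀ v w, adj v w → (((univ.filter (fun i => u v i = u w i)).card : ℕ) : ℝ) ≤ d) :
    ∀ (k : ℕ) (v y : V), y ∈ N adj k v →
      (((univ.filter (fun i => u v i ≠ (-1) ^ k * u y i)).card : ℕ) : ℝ) ≤ k * d := by
  intro k
  induction k with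
  | zero =>
    intro v y hy
    simp only [N, mem_singleton] at hy
    subst hy
    simp
  | succ k ih =>
    intro v y hy
    simp only [N, mem_filter, mem_univ, true_and] at hy
    obtain ⟨w, hvw, hy⟩ := hy
    have h1 := ih w y hy
    have h2 := hD v w hvw
    have h3 : (univ.filter (fun i => u v i ≠ (-1) ^ (k + 1) * u y i)) ⊆
        (univ.filter (fun i => u v i = u w i)) ∪
          (univ.filter (fun i => u w i ≠ (-1) ^ k * u y i)) := by
      intro i hi
      simp only [mem_union, mem_filter, mem_univ, true_and] at hi ⊢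
      by_contra hcon
      push Not at hcon
      obtain ⟨ha, hb⟩ := hcon
      apply hi
      rw [pow_succ, mul_comm ((-1 : ℝ) ^ k) (-1), mul_assoc, ← hb]
      rcases hu v i with h1 | h1 <;> rcases hu w i with h2 | h2
      · exact absurd (h1.trans h2.symm) ha
      · rw [h1, h2]; norm_num
      · rw [h1, h2]; norm_num
      · exact absurd (h1.trans h2.symm) ha
    have h4 := (card_le_card h3).trans (card_union_le _ _)
    have h5 : (((univ.filter (fun i => u v i ≠ (-1) ^ (k + 1) * u y i)).card : ℕ) : ℝ) ≤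
        (((univ.filter (fun i => u v i = u w i)).card : ℕ) : ℝ) +
          (((univ.filter (fun i => u w i ≠ (-1) ^ k * u y i)).card : ℕ) : ℝ) := by
      exact_mod_cast h4
    push_cast
    linarith

lemma dif_sq (hu : ∀ v i, u v i = 1 ∨ u v i = -1)
    (hD : ∀ v w, adj v w → (((univ.filter (fun i => u v i = u w i)).card : ℕ) : ℝ) ≤ d)
    {k : ℕ} {v y : V} (hy : y ∈ N adj k v) :
    ∑ i, (dif u k v y i) ^ 2 ≤ 4 * (k * d) := by
  have h1 : ∑ i, (dif u k v y i) ^ 2 =
      4 * (((univ.filter (fun i => u v i ≠ (-1) ^ k * u y i)).card : ℕ) : ℝ) := by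
    simp_rw [(dif_vals hu k v y _).1]
    rw [← sum_filter, sum_const, nsmul_eq_mul, mul_comm]
  rw [h1]
  have := N_diff hu hD k v y hy
  linarith

lemma dif_dot (hu : ∀ v i, u v i = 1 ∨ u v i = -1)
    (hD : ∀ v w, adj v w → (((univ.filter (fun i => u v i = u w i)).card : ℕ) : ℝ) ≤ d)
    {k : ℕ} {v y : V} (hy : y ∈ N adj k v) :
    0 ≤ dot (u v) (dif u k v y) ∧ dot (u v) (dif u k v y) ≤ 2 * (k * d) := by
  have h1 : dot (u v) (dif u k v y) =
      2 * (((univ.filter (fun i => u v i ≠ (-1) ^ k * u y i)).card : ℕ) : ℝ) := by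
    unfold dot
    simp_rw [(dif_vals hu k v y _).2]
    rw [← sum_filter, sum_const, nsmul_eq_mul, mul_comm]
  rw [h1]
  have := N_diff hu hD k v y hy
  constructor
  · positivity
  · linarith

lemma Z_nonneg (k : ℕ) (v : V) (g : Fin n → ℝ) : 0 ≤ Z adj u lam k v g :=
  sum_nonneg (fun _ _ => (Real.exp_pos _).le)

/-- The basic recursion. -/
lemma Z_rec {k : ℕ} {v w : V} (h : adj v w) (g : Fin n → ℝ) :
    Real.exp (lam * (dot g (u v) + dot g (u w))) * Z adj u lam k w (-g) ≤
      Z adj u lam (k + 1) v g := by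
  unfold Z
  rw [mul_sum]
  have h1 : N adj k w ⊆ N adj (k + 1) v := by
    intro y hy
    simp only [N, mem_filter, mem_univ, true_and]
    exact ⟨w, h, hy⟩
  refine le_trans (le_of_eq ?_) (sum_le_sum_of_subset_of_nonneg h1
    (fun _ _ _ => (Real.exp_pos _).le))
  apply sum_congr rfl
  intro y _
  rw [← Real.exp_add]
  congr 1
  rw [dot_neg_left]
  have h2 : dot g (dif u (k + 1) v y) = dot g (u v) + dot g (u w) - dot g (dif u k w y) := by
    simp only [dot, dif, ← sum_add_distrib, ← sum_sub_distrib]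
    apply sum_congr rfl
    intro i _
    rw [pow_succ]; ring
  rw [h2]; ring

lemma N_sub_two (hs : ∀ v w, adj v w → adj w v) {v w : V} (h : adj v w) (k : ℕ) :
    N adj k v ⊆ N adj (k + 2) v := by
  intro y hy
  simp only [N, mem_filter, mem_univ, true_and]
  exact ⟨w, h, v, hs _ _ h, hy⟩

lemma Z_two (hs : ∀ v w, adj v w → adj w v) {v w : V} (h : adj v w) (k : ℕ) (g : Fin n → ℝ) :
    Z adj u lam k v g ≤ Z adj u lam (k + 2) v g := by
  unfold Z
  refine le_trans (le_of_eq ?_) (sum_le_sum_of_subset_of_nonneg (N_sub_two hs h k)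
    (fun _ _ _ => (Real.exp_pos _).le))
  apply sum_congr rfl
  intro y _
  have : dif u (k + 2) v y = dif u k v y := by
    funext i
    simp [dif, pow_add]
  rw [this]

lemma Z_zero (v : V) (g : Fin n → ℝ) : Z adj u lam 0 v g = 1 := by
  simp [Z, N, dot, dif]

lemma N_nonempty (hne : ∀ v, ∃ w, adj v w) (k : ℕ) : ∀ v, (N adj k v).Nonempty := by
  induction k with
  | zero => intro v; exact ⟨v, by simp [N]⟩
  | succ k ih =>
    intro v
    obtain ⟨w, hw⟩ := hne v
    obtain ⟨y, hy⟩ := ih w
    exact ⟨y, by simp only [N, mem_filter, mem_univ, true_and]; exact ⟨w, hw, hy⟩⟩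

lemma Z_pos (hne : ∀ v, ∃ w, adj v w) (k : ℕ) (v : V) (g : Fin n → ℝ) :
    0 < Z adj u lam k v g :=
  sum_pos (fun _ _ => Real.exp_pos _) (N_nonempty hne k v)

/-- For every `k` and `g` the vertices whose potential grows slowly form an independent set. -/
noncomputable def S (adj : V → V → Prop) (u : V → Fin n → ℝ) (lam : ℝ) (k : ℕ) (v : V) :
    Set (Fin n → ℝ) :=
  {g | Z adj u lam (k + 1) v g < Real.exp (2 * lam * dot g (u v)) * Z adj u lam k v (-g)}

lemma S_indep (hs : ∀ v w, adj v w → adj w v) (hne : ∀ v, ∃ w, adj v w)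
    {k : ℕ} {v w : V} {g : Fin n → ℝ} (hv : g ∈ S adj u lam k v) (hw : g ∈ S adj u lam k w) :
    ¬ adj v w := by
  intro h
  have h1 := Z_rec (u := u) (lam := lam) (k := k) h g
  have h2 := Z_rec (u := u) (lam := lam) (k := k) (hs _ _ h) g
  simp only [S, Set.mem_ofPred_eq] at hv hw
  have p1 := Z_pos (u := u) (lam := lam) hne k v (-g)
  have p2 := Z_pos (u := u) (lam := lam) hne k w (-g)
  have h3 : Real.exp (lam * (dot g (u v) + dot g (u w))) * Z adj u lam k w (-g) <
      Real.exp (2 * lam * dot g (u v)) * Z adj u lam k v (-g) := lt_of_le_of_lt h1 hv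
  have h4 : Real.exp (lam * (dot g (u w) + dot g (u v))) * Z adj u lam k v (-g) <
      Real.exp (2 * lam * dot g (u w)) * Z adj u lam k w (-g) := lt_of_le_of_lt h2 hw
  have h5 := mul_lt_mul'' h3 h4 (by positivity) (by positivity)
  have h6 : Real.exp (lam * (dot g (u v) + dot g (u w))) * Z adj u lam k w (-g) *
      (Real.exp (lam * (dot g (u w) + dot g (u v))) * Z adj u lam k v (-g)) =
      Real.exp (2 * lam * dot g (u v)) * Z adj u lam k v (-g) *
      (Real.exp (2 * lam * dot g (u w)) * Z adj u lam k w (-g)) := by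
    have e1 : Real.exp (lam * (dot g (u v) + dot g (u w))) *
        Real.exp (lam * (dot g (u w) + dot g (u v))) =
        Real.exp (2 * lam * dot g (u v)) * Real.exp (2 * lam * dot g (u w)) := by
      rw [← Real.exp_add, ← Real.exp_add]; congr 1; ring
    linear_combination (Z adj u lam k w (-g) * Z adj u lam k v (-g)) * e1
  linarith

/-- The set on which the potential grows slowly, in a quantitative form. -/
noncomputable def B (adj : V → V → Prop) (u : V → Fin n → ℝ) (lam x : ℝ) (k : ℕ) (v : V) :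
    Set (Fin n → ℝ) :=
  {g | Z adj u lam (k + 1) v g ≤ Real.exp (x + 2 * lam * dot g (u v)) * Z adj u lam k v (-g)}

/-- A shift in the direction `u v` moves `B` into `S`. -/
lemma B_shift (hu : ∀ v i, u v i = 1 ∨ u v i = -1)
    (hD : ∀ v w, adj v w → (((univ.filter (fun i => u v i = u w i)).card : ℕ) : ℝ) ≤ d)
    (hne : ∀ v, ∃ w, adj v w) (hlam : 0 < lam) {b x : ℝ} (hb : 0 < b) {k : ℕ}
    (hx : x + 2 * lam * b * ((2 * k + 1) * d) < 2 * lam * b * n) {v : V} {g : Fin n → ℝ}
    (hg : g ∈ B adj u lam x k v) : g + b • u v ∈ S adj u lam k v := by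
  simp only [S, B, Set.mem_ofPred_eq] at hg ⊢
  have huu : dot (u v) (u v) = n := by
    unfold dot
    have : ∀ i, u v i * u v i = 1 := by
      intro i; rcases hu v i with h | h <;> rw [h] <;> norm_num
    simp [this]
  have h1 : Z adj u lam (k + 1) v (g + b • u v) ≤
      Real.exp (2 * lam * b * ((k + 1) * d)) * Z adj u lam (k + 1) v g := by
    unfold Z
    rw [mul_sum]
    apply sum_le_sum
    intro y hy
    rw [← Real.exp_add]
    apply Real.exp_le_exp.2
    rw [dot_add_left, dot_smul_left]
    have h2 := (dif_dot hu hD hy).2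
    push_cast at h2
    have h3 : lam * b * dot (u v) (dif u (k + 1) v y) ≤ lam * b * (2 * ((k + 1) * d)) :=
      mul_le_mul_of_nonneg_left h2 (by positivity)
    linarith
  have h2 : Real.exp (-(2 * lam * b * (k * d))) * Z adj u lam k v (-g) ≤
      Z adj u lam k v (-(g + b • u v)) := by
    unfold Z
    rw [mul_sum]
    apply sum_le_sum
    intro y hy
    rw [← Real.exp_add]
    apply Real.exp_le_exp.2
    rw [dot_neg_left, dot_neg_left, dot_add_left, dot_smul_left]
    have h2 := (dif_dot hu hD hy).2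
    have h3 : lam * b * dot (u v) (dif u k v y) ≤ lam * b * (2 * (k * d)) :=
      mul_le_mul_of_nonneg_left h2 (by positivity)
    linarith
  have p1 := Z_pos (u := u) (lam := lam) hne k v (-g)
  calc Z adj u lam (k + 1) v (g + b • u v)
      ≤ Real.exp (2 * lam * b * ((k + 1) * d)) * Z adj u lam (k + 1) v g := h1
    _ ≤ Real.exp (2 * lam * b * ((k + 1) * d)) *
        (Real.exp (x + 2 * lam * dot g (u v)) * Z adj u lam k v (-g)) :=
        mul_le_mul_of_nonneg_left hg (Real.exp_pos _).le
    _ = Real.exp (2 * lam * b * ((k + 1) * d) + (x + 2 * lam * dot g (u v))) *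
        Z adj u lam k v (-g) := by
        rw [Real.exp_add (2 * lam * b * ((k + 1) * d))]; ring
    _ < Real.exp (2 * lam * dot (g + b • u v) (u v) + -(2 * lam * b * (k * d))) *
        Z adj u lam k v (-g) := by
        apply mul_lt_mul_of_pos_right _ p1
        apply Real.exp_lt_exp.2
        rw [dot_add_left, dot_smul_left, huu]
        nlinarith
    _ = Real.exp (2 * lam * dot (g + b • u v) (u v)) *
        (Real.exp (-(2 * lam * b * (k * d))) * Z adj u lam k v (-g)) := by
        rw [Real.exp_add]; ring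
    _ ≤ _ := mul_le_mul_of_nonneg_left h2 (Real.exp_pos _).le

/-- Pigeonhole: if the last potential is at most `exp A` then at least `J/2` of the `2J` steps are
slow. -/
lemma pigeon (hs : ∀ v w, adj v w → adj w v) (hne : ∀ v, ∃ w, adj v w) {J : ℕ} (hJ : 0 < J)
    {A : ℝ} (v : V) (g : Fin n → ℝ) (hA : Z adj u lam (2 * J) v (-g) ≤ Real.exp A) :
    (J : ℝ) / 2 ≤ (((range (2 * J)).filter
      (fun k => ((-1 : ℝ) ^ k) • g ∈ B adj u lam (A / J) k v)).card : ℝ) := by
  obtain ⟨w, hw⟩ := hne v
  have hJR : (0 : ℝ) < J := by exact_mod_cast hJ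
  -- logarithms of the potentials
  let P : ℕ → ℝ := fun j => Real.log (Z adj u lam (2 * j) v (-g))
  have hP0 : P 0 = 0 := by simp [P, Z_zero]
  have hPmono : ∀ j, P j ≤ P (j + 1) := by
    intro j
    apply Real.log_le_log (Z_pos hne _ _ _)
    exact Z_two hs hw (2 * j) (-g)
  have hPJ : P J ≤ A := by
    have := Real.log_le_log (Z_pos hne _ _ _) hA
    rwa [Real.log_exp] at this
  -- pairs with a small increment
  let T : Finset ℕ := (range J).filter (fun j => P (j + 1) - P j ≤ 2 * A / J)
  have hT : (J : ℝ) / 2 ≤ (T.card : ℝ) := by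
    by_contra hcon
    push Not at hcon
    have h1 : ((range J).filter (fun j => ¬ (P (j + 1) - P j ≤ 2 * A / J))).card + T.card = J := by
      have := Finset.card_filter_add_card_filter_not (s := range J)
        (fun j => P (j + 1) - P j ≤ 2 * A / J)
      rw [card_range] at this
      simp only [T]
      omega
    have h1R : ((((range J).filter (fun j => ¬ (P (j + 1) - P j ≤ 2 * A / J))).card : ℕ) : ℝ) +
        T.card = J := by exact_mod_cast h1
    have h2 : ∑ j ∈ range J, (P (j + 1) - P j) = P J - P 0 := Finset.sum_range_sub P J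
    have h3 : ∑ j ∈ (range J).filter (fun j => ¬ (P (j + 1) - P j ≤ 2 * A / J)),
        (P (j + 1) - P j) ≤ ∑ j ∈ range J, (P (j + 1) - P j) :=
      sum_le_sum_of_subset_of_nonneg (filter_subset _ _)
        (fun j _ _ => by linarith [hPmono j])
    have hA0 : 0 ≤ A := by
      have : P 0 ≤ P J := monotone_nat_of_le_succ hPmono (Nat.zero_le J)
      linarith
    have h4 : ((((range J).filter (fun j => ¬ (P (j + 1) - P j ≤ 2 * A / J))).card : ℕ) : ℝ) *
        (2 * A / J) ≤ ∑ j ∈ (range J).filter (fun j => ¬ (P (j + 1) - P j ≤ 2 * A / J)),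
        (P (j + 1) - P j) := by
      rw [← nsmul_eq_mul, ← sum_const]
      apply sum_le_sum
      intro j hj
      simp only [mem_filter, not_le] at hj
      exact hj.2.le
    rcases eq_or_lt_of_le hA0 with hA1 | hA1
    · -- `A = 0`: all increments vanish
      have h5 : ∀ j ∈ range J, P (j + 1) - P j ≤ 2 * A / J := by
        intro j hj
        have h6 : P (j + 1) - P j ≤ ∑ j ∈ range J, (P (j + 1) - P j) :=
          single_le_sum (f := fun j => P (j + 1) - P j)
            (fun j _ => by linarith [hPmono j]) hj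
        rw [h2, hP0] at h6
        have h8 : 2 * A / J = 0 := by rw [← hA1]; simp
        linarith
      have h7 : T = range J := by
        apply Finset.filter_true_of_mem h5
      rw [h7, card_range] at hcon
      linarith
    · have h5 : (J : ℝ) / 2 < ((((range J).filter
          (fun j => ¬ (P (j + 1) - P j ≤ 2 * A / J))).card : ℕ) : ℝ) := by linarith
      have h6 : (J : ℝ) / 2 * (2 * A / J) < ((((range J).filter
          (fun j => ¬ (P (j + 1) - P j ≤ 2 * A / J))).card : ℕ) : ℝ) * (2 * A / J) :=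
        mul_lt_mul_of_pos_right h5 (by positivity)
      have h7 : (J : ℝ) / 2 * (2 * A / J) = A := by field_simp
      linarith
  -- each such pair gives a slow step
  have hstep : ∀ j ∈ T, ∃ k, (k = 2 * j ∨ k = 2 * j + 1) ∧
      ((-1 : ℝ) ^ k) • g ∈ B adj u lam (A / J) k v := by
    intro j hj
    simp only [T, mem_filter, mem_range] at hj
    by_contra hcon
    push Not at hcon
    have h1 := hcon (2 * j) (Or.inl rfl)
    have h2 := hcon (2 * j + 1) (Or.inr rfl)
    have e1 : ((-1 : ℝ)) ^ (2 * j) = 1 := by simp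
    have e2 : ((-1 : ℝ)) ^ (2 * j + 1) = -1 := by rw [pow_succ, e1]; norm_num
    rw [e1, one_smul] at h1
    rw [e2, neg_smul, one_smul] at h2
    simp only [B, Set.mem_ofPred_eq, not_le, neg_neg] at h1 h2
    rw [dot_neg_left] at h2
    have p0 := Z_pos (u := u) (lam := lam) hne (2 * j) v (-g)
    have p1 := Z_pos (u := u) (lam := lam) hne (2 * j + 1) v g
    have p2 := Z_pos (u := u) (lam := lam) hne (2 * j + 1 + 1) v (-g)
    have l1 := Real.log_lt_log (by positivity) h1
    have l2 := Real.log_lt_log (by positivity) h2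
    rw [Real.log_mul (Real.exp_pos _).ne' p0.ne', Real.log_exp] at l1
    rw [Real.log_mul (Real.exp_pos _).ne' p1.ne', Real.log_exp] at l2
    have l3 : P (j + 1) - P j ≤ 2 * A / J := hj.2
    have e3 : P (j + 1) = Real.log (Z adj u lam (2 * j + 1 + 1) v (-g)) := by
      simp only [P]; congr 2
    have e4 : P j = Real.log (Z adj u lam (2 * j) v (-g)) := rfl
    rw [e3, e4] at l3
    have e5 : 2 * A / J = A / J + A / J := by ring
    linarith
  choose! κ hκ1 hκ2 using hstep
  have hinj : Set.InjOn κ T := by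
    intro a ha b hb hab
    have h1 := hκ1 a ha
    have h2 := hκ1 b hb
    omega
  have hsub : T.image κ ⊆ (range (2 * J)).filter
      (fun k => ((-1 : ℝ) ^ k) • g ∈ B adj u lam (A / J) k v) := by
    intro k hk
    obtain ⟨j, hj, rfl⟩ := mem_image.1 hk
    have h1 := hκ1 j hj
    have h2 := hκ2 j hj
    simp only [mem_filter, mem_range]
    refine ⟨?_, h2⟩
    simp only [T, mem_filter, mem_range] at hj
    omega
  have hcard : T.card ≤ ((range (2 * J)).filter
      (fun k => ((-1 : ℝ) ^ k) • g ∈ B adj u lam (A / J) k v)).card := by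
    rw [← card_image_of_injOn hinj]
    exact card_le_card hsub
  have : (T.card : ℝ) ≤ (((range (2 * J)).filter
      (fun k => ((-1 : ℝ) ^ k) • g ∈ B adj u lam (A / J) k v)).card : ℝ) := by exact_mod_cast hcard
  linarith

end

end Pool.Agent.Lib.MP_cecf76_co.Half
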