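import Mathlib
import Pool.Agent.Lib.MP_cecf76_co.Half.Comb

set_option autoImplicit false

/-! Standard Gaussian vectors: moment generating function, symmetry, shifts. -/

namespace Pool.Agent.Lib.MP_cecf76_co.Half

open MeasureTheory ProbabilityTheory

/-- The standard Gaussian measure on `Fin n → ℝ`. -/
noncomputable def gau (n : ℕ) : Measure (Fin n → ℝ) := Measure.pi (fun _ => gaussianReal 0 1)

instance (n : ℕ) : IsProbabilityMeasure (gau n) := by unfold gau; infer_instance

variable {n : ℕ}

lemma exp_dot (g a : Fin n → ℝ) : Real.exp (dot g a) = ∏ i, Real.exp (g i * a i) := by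
  rw [dot, Real.exp_sum]

lemma integrable_exp_dot (a : Fin n → ℝ) : Integrable (fun g => Real.exp (dot g a)) (gau n) := by
  simp_rw [exp_dot]
  unfold gau
  apply Integrable.fintype_prod (f := fun i (x : ℝ) => Real.exp (x * a i))
  intro i
  have := integrable_exp_mul_gaussianReal (μ := 0) (v := 1) (a i)
  simpa [mul_comm] using this

lemma integral_exp_dot (a : Fin n → ℝ) :
    ∫ g, Real.exp (dot g a) ∂(gau n) = Real.exp ((∑ i, a i ^ 2) / 2) := by
  simp_rw [exp_dot]
  unfold gau
  rw [integral_fintype_prod_eq_prod (f := fun i (x : ℝ) => Real.exp (x * a i)), Finset.sum_div,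
    Real.exp_sum]
  apply Finset.prod_congr rfl
  intro i _
  have h := congrFun (mgf_fun_id_gaussianReal (μ := 0) (v := 1)) (a i)
  simp only [mgf] at h
  simp only [mul_comm _ (a i)]
  rw [h]
  congr 1
  simp

lemma measurable_dot (a : Fin n → ℝ) : Measurable (fun g : Fin n → ℝ => dot g a) := by
  unfold dot
  fun_prop

lemma gau_neg : (gau n).map (fun g => -g) = gau n := by
  have h := Measure.pi_map_pi (ι := Fin n) (μ := fun _ => gaussianReal 0 1)
    (f := fun _ x => -x) (hμ := fun i => by
      rw [gaussianReal_map_neg]; infer_instance) (fun i => measurable_neg.aemeasurable)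
  unfold gau
  have h2 : (fun g : Fin n → ℝ => -g) = fun x i => - (x i) := rfl
  rw [h2, h]
  congr 1
  funext i
  rw [gaussianReal_map_neg, neg_zero]

lemma gau_neg_real {E : Set (Fin n → ℝ)} (hE : MeasurableSet E) :
    (gau n).real {g | -g ∈ E} = (gau n).real E := by
  have h : (gau n) {g | -g ∈ E} = (gau n) E := by
    conv_rhs => rw [← gau_neg]
    rw [Measure.map_apply measurable_neg hE]
    rfl
  simp [Measure.real, h]

lemma gau_sign_real {E : Set (Fin n → ℝ)} (hE : MeasurableSet E) (k : ℕ) :
    (gau n).real {g | ((-1 : ℝ) ^ k) • g ∈ E} = (gau n).real E := by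
  rcases neg_one_pow_eq_or ℝ k with h | h
  · simp [h]
  · simp only [h, neg_smul, one_smul]
    exact gau_neg_real hE

lemma shift_one (b : ℝ) : gaussianReal b 1 =
    (gaussianReal 0 1).withDensity (fun x => ENNReal.ofReal (Real.exp (x * b - b ^ 2 / 2))) := by
  rw [gaussianReal_of_var_ne_zero _ one_ne_zero, gaussianReal_of_var_ne_zero _ one_ne_zero,
    ← withDensity_mul _ (measurable_gaussianPDF 0 1) (by fun_prop)]
  congr 1
  funext x
  simp only [Pi.mul_apply, gaussianPDF, gaussianPDFReal]
  rw [← ENNReal.ofReal_mul (by positivity)]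
  congr 1
  have e : Real.exp (-(x - b) ^ 2 / (2 * ((1 : NNReal) : ℝ))) =
      Real.exp (-(x - 0) ^ 2 / (2 * ((1 : NNReal) : ℝ))) * Real.exp (x * b - b ^ 2 / 2) := by
    rw [← Real.exp_add]
    congr 1
    simp
    ring
  rw [e]; ring

lemma shift_pi (b : Fin n → ℝ) : (gau n).map (fun g => g + b) =
    (gau n).withDensity (fun g => ENNReal.ofReal (Real.exp (dot g b - (∑ i, b i ^ 2) / 2))) := by
  have h := Measure.pi_map_pi (ι := Fin n) (μ := fun _ => gaussianReal 0 1)
    (f := fun i x => x + b i) (hμ := fun i => by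
      rw [gaussianReal_map_add_const]; infer_instance)
    (fun i => (measurable_id.add_const (b i)).aemeasurable)
  have h2 : (fun g : Fin n → ℝ => g + b) = fun x i => x i + b i := rfl
  rw [h2]
  conv_lhs => unfold gau
  rw [h]
  apply Measure.pi_eq
  intro s hs
  rw [withDensity_apply _ (MeasurableSet.univ_pi hs)]
  have e1 : ∀ g : Fin n → ℝ, Real.exp (dot g b - (∑ i, b i ^ 2) / 2) =
      ∏ i, Real.exp (g i * b i - b i ^ 2 / 2) := by
    intro g
    rw [← Real.exp_sum]
    congr 1
    simp [dot, Finset.sum_div]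
  simp_rw [e1]
  have hint : ∀ i, Integrable (fun x : ℝ => Real.exp (x * b i - b i ^ 2 / 2))
      (gaussianReal 0 1) := by
    intro i
    have h3 := (integrable_exp_mul_gaussianReal (μ := 0) (v := 1) (b i)).mul_const
      (Real.exp (-(b i ^ 2 / 2)))
    refine h3.congr (Filter.Eventually.of_forall (fun x => ?_))
    simp only
    rw [← Real.exp_add]
    congr 1
    ring
  have hint2 : Integrable (fun g : Fin n → ℝ => ∏ i, Real.exp (g i * b i - b i ^ 2 / 2))
      ((Measure.pi (fun _ : Fin n => gaussianReal 0 1)).restrict (Set.univ.pi s)) := by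
    rw [Measure.restrict_pi_pi]
    exact Integrable.fintype_prod (f := fun i (x : ℝ) => Real.exp (x * b i - b i ^ 2 / 2))
      (fun i => (hint i).restrict)
  unfold gau
  rw [← ofReal_integral_eq_lintegral_ofReal hint2
    (Filter.Eventually.of_forall (fun g => by positivity)), Measure.restrict_pi_pi,
    integral_fintype_prod_eq_prod (f := fun i (x : ℝ) => Real.exp (x * b i - b i ^ 2 / 2)),
    ENNReal.ofReal_prod_of_nonneg (fun i _ => integral_nonneg (fun x => (Real.exp_pos _).le))]
  apply Finset.prod_congr rfl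
  intro i _
  rw [gaussianReal_map_add_const, zero_add, shift_one (b i), withDensity_apply _ (hs i),
    ofReal_integral_eq_lintegral_ofReal (hint i).restrict
    (Filter.Eventually.of_forall (fun g => by positivity))]

/-- The Cameron-Martin shift with the Cauchy-Schwarz inequality. -/
lemma shift_le {E : Set (Fin n → ℝ)} (hE : MeasurableSet E) (b : Fin n → ℝ) :
    ((gau n).real {g | g + b ∈ E}) ^ 2 ≤ (gau n).real E * Real.exp (∑ i, b i ^ 2) := by
  have h1 : (gau n) {g | g + b ∈ E} =
      ∫⁻ g in E, ENNReal.ofReal (Real.exp (dot g b - (∑ i, b i ^ 2) / 2)) ∂(gau n) := by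
    rw [← withDensity_apply _ hE, ← shift_pi b, Measure.map_apply (measurable_add_const b) hE]
    rfl
  have hint : Integrable (fun g => Real.exp (dot g b - (∑ i, b i ^ 2) / 2)) (gau n) := by
    have h3 := (integrable_exp_dot b).mul_const (Real.exp (-((∑ i, b i ^ 2) / 2)))
    refine h3.congr (Filter.Eventually.of_forall (fun x => ?_))
    simp only
    rw [← Real.exp_add]
    congr 1
  have h2 : (gau n).real {g | g + b ∈ E} =
      ∫ g, E.indicator (fun g => Real.exp (dot g b - (∑ i, b i ^ 2) / 2)) g ∂(gau n) := by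
    rw [Measure.real, h1, ← ofReal_integral_eq_lintegral_ofReal hint.restrict
      (Filter.Eventually.of_forall (fun g => by positivity)), ENNReal.toReal_ofReal
      (integral_nonneg (fun x => (Real.exp_pos _).le)), integral_indicator hE]
  -- the square of the density
  have hsq : ∀ g : Fin n → ℝ, Real.exp (dot g b - (∑ i, b i ^ 2) / 2) ^ 2 =
      Real.exp (dot g ((2 : ℝ) • b)) * Real.exp (-(∑ i, b i ^ 2)) := by
    intro g
    rw [← Real.exp_nat_mul, ← Real.exp_add]
    congr 1
    have : dot g ((2 : ℝ) • b) = 2 * dot g b := by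
      simp only [dot, Pi.smul_apply, smul_eq_mul, Finset.mul_sum]
      apply Finset.sum_congr rfl
      intro i _; ring
    rw [this]; push_cast; ring
  have hint2 : Integrable (fun g => Real.exp (dot g b - (∑ i, b i ^ 2) / 2) ^ 2) (gau n) := by
    simp_rw [hsq]
    exact (integrable_exp_dot _).mul_const _
  have hval : ∫ g, Real.exp (dot g b - (∑ i, b i ^ 2) / 2) ^ 2 ∂(gau n) =
      Real.exp (∑ i, b i ^ 2) := by
    simp_rw [hsq]
    rw [integral_mul_const, integral_exp_dot, ← Real.exp_add]
    congr 1
    simp only [Pi.smul_apply, smul_eq_mul, mul_pow, ← Finset.mul_sum]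
    ring
  set X : ℝ := (gau n).real {g | g + b ∈ E} with hX
  set P : ℝ := (gau n).real E with hP
  have hP0 : 0 ≤ P := measureReal_nonneg
  have hX0 : 0 ≤ X := measureReal_nonneg
  -- Cauchy-Schwarz through the quadratic inequality
  have key : ∀ t : ℝ, 0 < t → 2 * t * X ≤ t ^ 2 * Real.exp (∑ i, b i ^ 2) + P := by
    intro t ht
    have h3 : ∀ g : Fin n → ℝ,
        2 * t * E.indicator (fun g => Real.exp (dot g b - (∑ i, b i ^ 2) / 2)) g ≤
        t ^ 2 * Real.exp (dot g b - (∑ i, b i ^ 2) / 2) ^ 2 + E.indicator (fun _ => (1 : ℝ)) g := by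
      intro g
      by_cases hg : g ∈ E
      · rw [Set.indicator_of_mem hg, Set.indicator_of_mem hg]
        nlinarith [sq_nonneg (t * Real.exp (dot g b - (∑ i, b i ^ 2) / 2) - 1)]
      · rw [Set.indicator_of_notMem hg, Set.indicator_of_notMem hg]
        have := sq_nonneg (t * Real.exp (dot g b - (∑ i, b i ^ 2) / 2))
        nlinarith
    have hi1 : Integrable (fun g => 2 * t * E.indicator
        (fun g => Real.exp (dot g b - (∑ i, b i ^ 2) / 2)) g) (gau n) :=
      (hint.indicator hE).const_mul _
    have hi2 : Integrable (fun g => t ^ 2 * Real.exp (dot g b - (∑ i, b i ^ 2) / 2) ^ 2)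
        (gau n) := hint2.const_mul _
    have hi3 : Integrable (fun g => E.indicator (fun _ => (1 : ℝ)) g) (gau n) :=
      (integrable_const 1).indicator hE
    have h4 := integral_mono hi1 (hi2.add hi3) (fun g => h3 g)
    simp only [Pi.add_apply] at h4
    rw [integral_add hi2 hi3, integral_const_mul, integral_const_mul, hval, ← h2,
      integral_indicator_const _ hE] at h4
    simp only [smul_eq_mul, mul_one] at h4
    exact h4
  -- optimise
  set R : ℝ := Real.exp (∑ i, b i ^ 2) with hR
  have hR0 : 0 < R := Real.exp_pos _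
  rcases eq_or_lt_of_le hX0 with h0 | h0
  · rw [← h0]
    have : 0 ≤ P * R := by positivity
    simpa using this
  · have h5 := key (X / R) (by positivity)
    have h6 : 2 * (X / R) * X = 2 * (X ^ 2 / R) := by ring
    have h7 : (X / R) ^ 2 * R = X ^ 2 / R := by field_simp
    rw [h6, h7] at h5
    have h8 : X ^ 2 / R ≤ P := by linarith
    rwa [div_le_iff₀ hR0] at h8

end Pool.Agent.Lib.MP_cecf76_co.Half
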