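import Mathlib
import Pool.Agent.Lib.MP_cecf76_co.Core
import Pool.Agent.Lib.MP_cecf76_co.Half.Gauss

set_option autoImplicit false

/-! The lower bound for densities close to `1/2`. -/

namespace Pool.Agent.Lib.MP_cecf76_co.Half

open MeasureTheory ProbabilityTheory Finset Classical

variable {V : Type*} [Fintype V] {n : ℕ} {adj : V → V → Prop} {u : V → Fin n → ℝ} {d lam : ℝ}

lemma measurable_Z (k : ℕ) (v : V) : Measurable (fun g : Fin n → ℝ => Z adj u lam k v g) := by
  unfold Z
  apply Finset.measurable_sum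
  intro y _
  exact Real.measurable_exp.comp ((measurable_dot _).const_mul lam)

lemma measurable_Z_neg (k : ℕ) (v : V) :
    Measurable (fun g : Fin n → ℝ => Z adj u lam k v (-g)) :=
  (measurable_Z k v).comp measurable_neg

lemma measurableSet_B (x : ℝ) (k : ℕ) (v : V) : MeasurableSet (B adj u lam x k v) := by
  unfold B
  apply measurableSet_le (measurable_Z (k + 1) v)
  apply Measurable.mul _ (measurable_Z_neg k v)
  exact Real.measurable_exp.comp (((measurable_dot (u v)).const_mul (2 * lam)).const_add x)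

lemma measurableSet_S (k : ℕ) (v : V) : MeasurableSet (S adj u lam k v) := by
  unfold S
  apply measurableSet_lt (measurable_Z (k + 1) v)
  apply Measurable.mul _ (measurable_Z_neg k v)
  exact Real.measurable_exp.comp ((measurable_dot (u v)).const_mul (2 * lam))

lemma prob_Z (hu : ∀ v i, u v i = 1 ∨ u v i = -1)
    (hD : ∀ v w, adj v w → (((univ.filter (fun i => u v i = u w i)).card : ℕ) : ℝ) ≤ d)
    {k : ℕ} {A : ℝ} (v : V)
    (hA : 4 * (Fintype.card V : ℝ) * Real.exp (2 * lam ^ 2 * (k * d)) ≤ Real.exp A) :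
    3 / 4 ≤ (gau n).real {g | Z adj u lam k v (-g) ≤ Real.exp A} := by
  have hterm : ∀ y, Integrable (fun g : Fin n → ℝ => Real.exp (lam * dot (-g) (dif u k v y)))
      (gau n) := by
    intro y
    have h := integrable_exp_dot (n := n) ((-lam) • dif u k v y)
    refine h.congr (Filter.Eventually.of_forall (fun g => ?_))
    simp only [dot, Pi.smul_apply, smul_eq_mul, Pi.neg_apply, mul_sum]
    congr 1
    apply sum_congr rfl
    intro i _; ring
  have hval : ∀ y, ∫ g : Fin n → ℝ, Real.exp (lam * dot (-g) (dif u k v y)) ∂(gau n) =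
      Real.exp (lam ^ 2 * (∑ i, (dif u k v y i) ^ 2) / 2) := by
    intro y
    have h := integral_exp_dot (n := n) ((-lam) • dif u k v y)
    have e : ∀ g : Fin n → ℝ, Real.exp (lam * dot (-g) (dif u k v y)) =
        Real.exp (dot g ((-lam) • dif u k v y)) := by
      intro g
      simp only [dot, Pi.smul_apply, smul_eq_mul, Pi.neg_apply, mul_sum]
      congr 1
      apply sum_congr rfl
      intro i _; ring
    simp_rw [e]
    rw [h]
    congr 1
    simp only [Pi.smul_apply, smul_eq_mul, mul_pow, ← mul_sum]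
    ring
  have hint : Integrable (fun g : Fin n → ℝ => Z adj u lam k v (-g)) (gau n) := by
    unfold Z
    exact integrable_finsetSum _ (fun y _ => hterm y)
  have hE : ∫ g : Fin n → ℝ, Z adj u lam k v (-g) ∂(gau n) ≤
      (Fintype.card V : ℝ) * Real.exp (2 * lam ^ 2 * (k * d)) := by
    unfold Z
    rw [integral_finsetSum _ (fun y _ => hterm y)]
    have h1 : ∀ y ∈ N adj k v,
        ∫ g : Fin n → ℝ, Real.exp (lam * dot (-g) (dif u k v y)) ∂(gau n) ≤
        Real.exp (2 * lam ^ 2 * (k * d)) := by
      intro y hy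
      rw [hval y]
      apply Real.exp_le_exp.2
      have := dif_sq hu hD hy
      have h2 := mul_le_mul_of_nonneg_left this (sq_nonneg lam)
      linarith
    refine (sum_le_sum h1).trans ?_
    rw [sum_const, nsmul_eq_mul]
    apply mul_le_mul_of_nonneg_right _ (Real.exp_pos _).le
    exact_mod_cast card_le_univ (N adj k v)
  -- Markov
  have hm := mul_meas_ge_le_integral_of_nonneg (μ := gau n)
    (f := fun g : Fin n → ℝ => Z adj u lam k v (-g))
    (Filter.Eventually.of_forall (fun g => Z_nonneg k v (-g))) hint (Real.exp A)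
  have h3 : (gau n).real {g | Real.exp A ≤ Z adj u lam k v (-g)} ≤ 1 / 4 := by
    have h4 : Real.exp A * (gau n).real {g | Real.exp A ≤ Z adj u lam k v (-g)} ≤
        Real.exp A / 4 := by
      refine hm.trans (hE.trans ?_)
      linarith
    have hp := Real.exp_pos A
    nlinarith
  have h5 : {g : Fin n → ℝ | Z adj u lam k v (-g) ≤ Real.exp A}ᶜ ⊆
      {g | Real.exp A ≤ Z adj u lam k v (-g)} := by
    intro g hg
    simp only [Set.mem_compl_iff, Set.mem_ofPred_eq, not_le] at hg ⊢
    exact hg.le
  have hmeas : MeasurableSet {g : Fin n → ℝ | Z adj u lam k v (-g) ≤ Real.exp A} :=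
    measurableSet_le (measurable_Z_neg k v) measurable_const
  have h6 := measureReal_mono (μ := gau n) h5
  rw [probReal_compl_eq_one_sub hmeas] at h6
  linarith

/-- The expected number of slow steps. -/
lemma sum_B (hu : ∀ v i, u v i = 1 ∨ u v i = -1)
    (hs : ∀ v w, adj v w → adj w v) (hne : ∀ v, ∃ w, adj v w)
    (hD : ∀ v w, adj v w → (((univ.filter (fun i => u v i = u w i)).card : ℕ) : ℝ) ≤ d)
    {J : ℕ} (hJ : 0 < J) {A : ℝ}
    (hA : 4 * (Fintype.card V : ℝ) * Real.exp (2 * lam ^ 2 * ((2 * J : ℕ) * d)) ≤ Real.exp A)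
    (v : V) :
    3 * (J : ℝ) / 8 ≤ ∑ k ∈ range (2 * J), (gau n).real (B adj u lam (A / J) k v) := by
  have hm : ∀ k, MeasurableSet {g : Fin n → ℝ | ((-1 : ℝ) ^ k) • g ∈ B adj u lam (A / J) k v} :=
    fun k => (measurableSet_B _ k v).preimage (measurable_const_smul _)
  have h1 : ∀ k ∈ range (2 * J), (gau n).real (B adj u lam (A / J) k v) =
      ∫ g, Set.indicator {g : Fin n → ℝ | ((-1 : ℝ) ^ k) • g ∈ B adj u lam (A / J) k v}
        (fun _ => (1 : ℝ)) g ∂(gau n) := by
    intro k _
    rw [integral_indicator_const _ (hm k), gau_sign_real (measurableSet_B _ k v) k]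
    simp
  rw [sum_congr rfl h1, ← integral_finsetSum _
    (fun k _ => (integrable_const (1 : ℝ)).indicator (hm k))]
  have hG : MeasurableSet {g : Fin n → ℝ | Z adj u lam (2 * J) v (-g) ≤ Real.exp A} :=
    measurableSet_le (measurable_Z_neg _ v) measurable_const
  have h2 := prob_Z (adj := adj) hu hD v hA
  have h3 : ∀ g : Fin n → ℝ, Set.indicator
      {g : Fin n → ℝ | Z adj u lam (2 * J) v (-g) ≤ Real.exp A} (fun _ => (J : ℝ) / 2) g ≤
      ∑ k ∈ range (2 * J), Set.indicator
        {g : Fin n → ℝ | ((-1 : ℝ) ^ k) • g ∈ B adj u lam (A / J) k v} (fun _ => (1 : ℝ)) g := by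
    intro g
    by_cases hg : g ∈ {g : Fin n → ℝ | Z adj u lam (2 * J) v (-g) ≤ Real.exp A}
    · rw [Set.indicator_of_mem hg]
      have h4 := pigeon (u := u) (lam := lam) hs hne hJ v g hg
      refine h4.trans (le_of_eq ?_)
      rw [Finset.card_filter]
      push_cast
      apply sum_congr rfl
      intro k _
      by_cases hk : ((-1 : ℝ) ^ k) • g ∈ B adj u lam (A / J) k v
      · rw [if_pos hk, Set.indicator_of_mem]; exact hk
      · rw [if_neg hk, Set.indicator_of_notMem]; exact hk
    · rw [Set.indicator_of_notMem hg]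
      apply sum_nonneg
      intro k _
      exact Set.indicator_nonneg (fun _ _ => zero_le_one) _
  have h5 := integral_mono (μ := gau n)
    ((integrable_const ((J : ℝ) / 2)).indicator hG)
    (integrable_finsetSum _ (fun k _ => (integrable_const (1 : ℝ)).indicator (hm k)))
    (fun g => h3 g)
  rw [integral_indicator_const _ hG, smul_eq_mul] at h5
  have hJR : (0 : ℝ) < J := by exact_mod_cast hJ
  nlinarith

/-- Heavy independent sets in graphs whose adjacent vertices have almost opposite sign vectors. -/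
theorem core {wt : V → ℝ} (hwt : ∀ v, 0 ≤ wt v) (hu : ∀ v i, u v i = 1 ∨ u v i = -1)
    (hs : ∀ v w, adj v w → adj w v) (hne : ∀ v, ∃ w, adj v w)
    (hD : ∀ v w, adj v w → (((univ.filter (fun i => u v i = u w i)).card : ℕ) : ℝ) ≤ d)
    (hd : 0 ≤ d) (hn : 0 < n) {J : ℕ} (hJ : 0 < J) (hJd : 8 * J * d ≤ n) {α : ℝ}
    (hα : ∀ I : Finset V, (∀ v ∈ I, ∀ w ∈ I, ¬ adj v w) → ∑ v ∈ I, wt v ≤ α) :
    9 / 256 * (∑ v, wt v) *
      Real.exp (-(2 * Real.log (4 * Fintype.card V) / J ^ 2)) ≤ α := by
  rcases isEmpty_or_nonempty V with hV | hV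
  · have h1 := hα ∅ (by simp)
    simpa using h1
  have hnR : (0 : ℝ) < n := by exact_mod_cast hn
  have hJR : (0 : ℝ) < J := by exact_mod_cast hJ
  have hVR : (1 : ℝ) ≤ Fintype.card V := by exact_mod_cast Fintype.card_pos
  set L : ℝ := Real.log (4 * Fintype.card V) with hL
  have hL0 : 0 < L := Real.log_pos (by linarith)
  have hexpL : Real.exp L = 4 * Fintype.card V := Real.exp_log (by positivity)
  set lam : ℝ := Real.sqrt (2 * L / n) with hlam
  have hlam0 : 0 < lam := Real.sqrt_pos.2 (by positivity)
  have hlam2 : lam ^ 2 = 2 * L / n := Real.sq_sqrt (by positivity)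
  set b : ℝ := lam / J with hb
  have hb0 : 0 < b := by positivity
  have hlb : lam * b = 2 * L / (n * J) := by
    rw [hb, ← mul_div_assoc, ← sq, hlam2]
    field_simp
  have hbn : b ^ 2 * n = 2 * L / J ^ 2 := by
    rw [hb, div_pow, hlam2]
    field_simp
  have hA : 4 * (Fintype.card V : ℝ) * Real.exp (2 * lam ^ 2 * ((2 * J : ℕ) * d)) ≤
      Real.exp (2 * L) := by
    rw [← hexpL, ← Real.exp_add]
    apply Real.exp_le_exp.2
    rw [hlam2]
    push_cast
    have h1 : 2 * (2 * L / n) * (2 * J * d) = (L / n) * (8 * J * d) := by ring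
    rw [h1]
    have h2 : (L / n) * (8 * J * d) ≤ (L / n) * n :=
      mul_le_mul_of_nonneg_left hJd (by positivity)
    have h3 : (L / n) * n = L := by field_simp
    linarith
  -- each vertex
  have hvert : ∀ v : V, Real.exp (-(2 * L / J ^ 2)) * (9 * J / 128) ≤
      ∑ k ∈ range (2 * J), (gau n).real (S adj u lam k v) := by
    intro v
    have h1 := sum_B (lam := lam) hu hs hne hD hJ hA v
    set p : ℕ → ℝ := fun k => (gau n).real (B adj u lam (2 * L / J) k v) with hp
    have h2 : (∑ k ∈ range (2 * J), p k) ^ 2 ≤ (2 * J : ℕ) * ∑ k ∈ range (2 * J), p k ^ 2 := by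
      have := sq_sum_le_card_mul_sum_sq (s := range (2 * J)) (f := p)
      rwa [card_range] at this
    have h3 : (3 * (J : ℝ) / 8) ^ 2 ≤ (∑ k ∈ range (2 * J), p k) ^ 2 :=
      pow_le_pow_left₀ (by positivity) h1 2
    push_cast at h2
    have h4 : 9 * (J : ℝ) / 128 ≤ ∑ k ∈ range (2 * J), p k ^ 2 := by
      have h5 : (9 * (J : ℝ) / 128) * (2 * J) ≤ (∑ k ∈ range (2 * J), p k ^ 2) * (2 * J) := by
        nlinarith
      exact le_of_mul_le_mul_right h5 (by positivity)
    have h6 : ∀ k ∈ range (2 * J), Real.exp (-(2 * L / J ^ 2)) * p k ^ 2 ≤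
        (gau n).real (S adj u lam k v) := by
      intro k hk
      have hk' : k + 1 ≤ 2 * J := by simpa using hk
      have hkR : (k : ℝ) + 1 ≤ 2 * J := by exact_mod_cast hk'
      have h7 := shift_le (measurableSet_S (adj := adj) (u := u) (lam := lam) k v) (b • u v)
      have h8 : ∑ i, (b • u v) i ^ 2 = 2 * L / J ^ 2 := by
        rw [← hbn]
        simp only [Pi.smul_apply, smul_eq_mul, mul_pow]
        have : ∀ i, u v i ^ 2 = 1 := by
          intro i; rcases hu v i with h | h <;> rw [h] <;> norm_num
        simp [this, mul_comm]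
      rw [h8] at h7
      have h9 : B adj u lam (2 * L / J) k v ⊆ {g | g + b • u v ∈ S adj u lam k v} := by
        intro g hg
        apply B_shift hu hD hne hlam0 hb0 _ hg
        -- the numerical condition
        have e1 : 2 * lam * b * ((2 * k + 1) * d) = (2 * L / (n * J)) * (2 * (2 * k + 1) * d) := by
          rw [← hlb]; ring
        have e2 : 2 * lam * b * n = 4 * L / J := by
          have : 2 * lam * b * n = 2 * (lam * b) * n := by ring
          rw [this, hlb]; field_simp; ring
        rw [e1, e2]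
        have h10 : 2 * (2 * (k : ℝ) + 1) * d < n := by
          rcases eq_or_lt_of_le hd with h0 | h0
          · rw [← h0]; simpa using hnR
          · have : 2 * (2 * (k : ℝ) + 1) * d ≤ (8 * J - 2) * d :=
              mul_le_mul_of_nonneg_right (by linarith) hd
            nlinarith
        have h11 : (2 * L / (n * J)) * (2 * (2 * k + 1) * d) < (2 * L / (n * J)) * n :=
          mul_lt_mul_of_pos_left h10 (by positivity)
        have h12 : (2 * L / (n * J)) * n = 2 * L / J := by field_simp
        have h13 : 4 * L / (J : ℝ) = 2 * L / J + 2 * L / J := by ring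
        linarith
      have h14 : p k ≤ (gau n).real {g | g + b • u v ∈ S adj u lam k v} :=
        measureReal_mono h9
      have h15 : p k ^ 2 ≤ (gau n).real (S adj u lam k v) * Real.exp (2 * L / J ^ 2) :=
        (pow_le_pow_left₀ measureReal_nonneg h14 2).trans h7
      calc Real.exp (-(2 * L / J ^ 2)) * p k ^ 2
          ≤ Real.exp (-(2 * L / J ^ 2)) *
            ((gau n).real (S adj u lam k v) * Real.exp (2 * L / J ^ 2)) :=
            mul_le_mul_of_nonneg_left h15 (Real.exp_pos _).le
        _ = (gau n).real (S adj u lam k v) *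
            (Real.exp (-(2 * L / J ^ 2)) * Real.exp (2 * L / J ^ 2)) := by ring
        _ = (gau n).real (S adj u lam k v) := by rw [← Real.exp_add]; simp
    calc Real.exp (-(2 * L / J ^ 2)) * (9 * J / 128)
        ≤ Real.exp (-(2 * L / J ^ 2)) * ∑ k ∈ range (2 * J), p k ^ 2 :=
          mul_le_mul_of_nonneg_left h4 (Real.exp_pos _).le
      _ = ∑ k ∈ range (2 * J), Real.exp (-(2 * L / J ^ 2)) * p k ^ 2 := by rw [mul_sum]
      _ ≤ _ := sum_le_sum h6
  -- the independent sets
  have hind : ∀ k, ∑ v : V, wt v * (gau n).real (S adj u lam k v) ≤ α := by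
    intro k
    have h1 : ∀ v ∈ (univ : Finset V), wt v * (gau n).real (S adj u lam k v) =
        ∫ g, Set.indicator (S adj u lam k v) (fun _ => wt v) g ∂(gau n) := by
      intro v _
      rw [integral_indicator_const _ (measurableSet_S k v)]
      simp [mul_comm]
    rw [sum_congr rfl h1, ← integral_finsetSum _
      (fun v _ => (integrable_const (wt v)).indicator (measurableSet_S k v))]
    have h2 : ∀ g : Fin n → ℝ,
        ∑ v : V, Set.indicator (S adj u lam k v) (fun _ => wt v) g ≤ α := by
      intro g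
      have h3 := hα (univ.filter (fun v => g ∈ S adj u lam k v)) (by
        intro v hv w hw
        simp only [mem_filter, mem_univ, true_and] at hv hw
        exact S_indep hs hne hv hw)
      refine le_trans (le_of_eq ?_) h3
      rw [sum_filter]
      apply sum_congr rfl
      intro v _
      by_cases hv : g ∈ S adj u lam k v
      · rw [if_pos hv, Set.indicator_of_mem hv]
      · rw [if_neg hv, Set.indicator_of_notMem hv]
    have h4 := integral_mono (μ := gau n)
      (integrable_finsetSum _ (fun v _ =>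
        (integrable_const (wt v)).indicator (measurableSet_S k v)))
      (integrable_const α) (fun g => h2 g)
    simpa using h4
  have hsum : (∑ v, wt v) * (Real.exp (-(2 * L / J ^ 2)) * (9 * J / 128)) ≤
      2 * J * α := by
    calc (∑ v, wt v) * (Real.exp (-(2 * L / J ^ 2)) * (9 * J / 128))
        = ∑ v : V, wt v * (Real.exp (-(2 * L / J ^ 2)) * (9 * J / 128)) := by
          rw [sum_mul]
      _ ≤ ∑ v : V, wt v * ∑ k ∈ range (2 * J), (gau n).real (S adj u lam k v) :=
          sum_le_sum (fun v _ => mul_le_mul_of_nonneg_left (hvert v) (hwt v))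
      _ = ∑ v : V, ∑ k ∈ range (2 * J), wt v * (gau n).real (S adj u lam k v) := by
          simp_rw [mul_sum]
      _ = ∑ k ∈ range (2 * J), ∑ v : V, wt v * (gau n).real (S adj u lam k v) := sum_comm
      _ ≤ ∑ _k ∈ range (2 * J), α := sum_le_sum (fun k _ => hind k)
      _ = 2 * J * α := by rw [sum_const, card_range, nsmul_eq_mul]; push_cast; ring
  have hfin : (2 * (J : ℝ)) * (9 / 256 * (∑ v, wt v) *
      Real.exp (-(2 * L / J ^ 2))) ≤ (2 * J) * α := by
    refine le_trans (le_of_eq ?_) hsum
    ring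
  exact le_of_mul_le_mul_left hfin (by positivity)

end Pool.Agent.Lib.MP_cecf76_co.Half
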