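import Mathlib
import Pool.Agent.Lib.MP_cecf76_co.Core
import Pool.Agent.Lib.MP_cecf76_co.Half.Main

set_option autoImplicit false

/-! The lower bound `f(n, m, c, ε) ≥ (m/64) exp (- 1152 (1/2 - c + ε)^2 min (n, log m))`. -/

namespace Pool.Agent.Lib.MP_cecf76_co.Half

open Finset Classical

/-- The sign vector of a set. -/
noncomputable def sgn {n : ℕ} (X : Finset (Fin n)) : Fin n → ℝ :=
  fun s => if s ∈ X then 1 else -1

lemma agree_card {n : ℕ} (X Y : Finset (Fin n)) :
    (((univ.filter (fun s : Fin n => sgn X s = sgn Y s)).card : ℕ) : ℝ) =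
      n - X.card - Y.card + 2 * (X ∩ Y).card := by
  have h1 : (univ.filter (fun s : Fin n => sgn X s = sgn Y s)) = (X ∩ Y) ∪ (X ∪ Y)ᶜ := by
    ext s
    simp only [sgn, mem_filter, mem_univ, true_and, mem_union, mem_inter, mem_compl]
    by_cases hx : s ∈ X <;> by_cases hy : s ∈ Y <;> simp [hx, hy] <;> norm_num
  have h2 : Disjoint (X ∩ Y) (X ∪ Y)ᶜ := by
    rw [disjoint_left]
    intro s hs hs'
    simp only [mem_inter, mem_compl, mem_union] at hs hs'
    exact hs' (Or.inl hs.1)
  rw [h1, card_union_of_disjoint h2]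
  have h3 : (X ∪ Y).card + (X ∩ Y).card = X.card + Y.card := card_union_add_card_inter X Y
  have h4 : (X ∪ Y)ᶜ.card + (X ∪ Y).card = n := by
    rw [card_compl_add_card]; simp
  have h3R : ((X ∪ Y).card : ℝ) + (X ∩ Y).card = X.card + Y.card := by exact_mod_cast h3
  have h4R : (((X ∪ Y)ᶜ.card : ℕ) : ℝ) + (X ∪ Y).card = n := by exact_mod_cast h4
  push_cast
  linarith

theorem inter_large {n m : ℕ} {c ε : ℝ} (hn : 0 < n) (hm : 0 < m)
    (hδ : 0 < 1 / 2 - c + ε) {J : ℕ} (hJ : 0 < J) (hJd : 16 * J * (1 / 2 - c + ε) ≤ 1)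
    (A : Fin m → Finset (Fin n)) (hA : ∀ i, c * n < ((A i).card : ℝ)) :
    ∃ I : Finset (Fin m), 9 / 256 * (m : ℝ) *
      Real.exp (-(2 * Real.log (4 * (min m (2 ^ n) : ℕ)) / J ^ 2)) ≤
      (I.card : ℝ) ∧ IsInter ε A I := by
  have hnR : (0 : ℝ) < n := by exact_mod_cast hn
  have hJR : (0 : ℝ) < J := by exact_mod_cast hJ
  have hmR : (1 : ℝ) ≤ m := by exact_mod_cast hm
  let P : Fin m → Prop := fun i => ∃ j, ((A i ∩ A j).card : ℝ) ≤ ε * n
  let V := {X : Finset (Fin n) // (∃ i, A i = X) ∧ ∃ j, ((X ∩ A j).card : ℝ) ≤ ε * n}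
  let adj : V → V → Prop := fun X Y => ((X.1 ∩ Y.1).card : ℝ) ≤ ε * n
  have hs : ∀ v w, adj v w → adj w v := fun v w h => by
    simp only [adj] at h ⊢
    rw [inter_comm]; exact h
  have hne : ∀ v : V, ∃ w, adj v w := by
    rintro ⟨X, ⟨i, rfl⟩, ⟨j, hj⟩⟩
    refine ⟨⟨A j, ⟨j, rfl⟩, ⟨i, by rw [inter_comm]; exact hj⟩⟩, hj⟩
  let u : V → Fin n → ℝ := fun v => sgn v.1
  have hu : ∀ v i, u v i = 1 ∨ u v i = -1 := by
    intro v s
    simp only [u, sgn]
    split
    · exact Or.inl rfl
    · exact Or.inr rfl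
  set d : ℝ := 2 * (1 / 2 - c + ε) * n with hd
  have hd0 : 0 ≤ d := by positivity
  have hVA : ∀ v : V, c * n < (v.1.card : ℝ) := by
    rintro ⟨X, ⟨i, rfl⟩, _⟩
    exact hA i
  have hD : ∀ v w, adj v w → (((univ.filter (fun i => u v i = u w i)).card : ℕ) : ℝ) ≤ d := by
    intro v w hvw
    have h1 := agree_card v.1 w.1
    have h2 : (univ.filter (fun i => u v i = u w i)) =
        (univ.filter (fun s : Fin n => sgn v.1 s = sgn w.1 s)) := rfl
    rw [h2, h1, hd]
    have h3 := hVA v
    have h4 := hVA w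
    have h5 : ((v.1 ∩ w.1).card : ℝ) ≤ ε * n := hvw
    nlinarith
  let wt : V → ℝ := fun v => ((univ.filter (fun i => A i = v.1)).card : ℝ)
  have hwt : ∀ v, 0 ≤ wt v := fun v => by positivity
  -- an independent set of maximum weight
  obtain ⟨I₀, hI₀, hmax⟩ := Finset.exists_max_image
    ((univ : Finset (Finset V)).filter (fun I => ∀ v ∈ I, ∀ w ∈ I, ¬ adj v w))
    (fun I => ∑ v ∈ I, wt v) ⟨∅, by simp⟩
  simp only [mem_filter, mem_univ, true_and] at hI₀ hmax
  have hJd' : 8 * J * d ≤ n := by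
    rw [hd]
    have : 8 * (J : ℝ) * (2 * (1 / 2 - c + ε) * n) = (16 * J * (1 / 2 - c + ε)) * n := by ring
    rw [this]
    nlinarith
  have hcore := core (V := V) (wt := wt) (α := ∑ v ∈ I₀, wt v) hwt hu hs hne hD hd0 hn hJ hJd' (by
    intro I hI
    exact hmax I hI)
  -- the number of vertices
  have hV1 : Fintype.card V ≤ 2 ^ n := by
    have h1 : Fintype.card V ≤ Fintype.card (Finset (Fin n)) :=
      Fintype.card_le_of_injective Subtype.val Subtype.val_injective
    simpa using h1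
  have hV2 : Fintype.card V ≤ m := by
    have h1 : ∀ v : V, ∃ i, A i = v.1 := fun v => v.2.1
    choose g hg using h1
    have h2 : Function.Injective g := by
      intro a b hab
      apply Subtype.ext
      rw [← hg a, ← hg b, hab]
    have := Fintype.card_le_of_injective g h2
    simpa using this
  have hVM : Fintype.card V ≤ min m (2 ^ n) := le_min hV2 hV1
  set M : ℕ := min m (2 ^ n) with hM
  have hM1 : 1 ≤ M := le_min hm (Nat.one_le_two_pow)
  have hM1R : (1 : ℝ) ≤ M := by exact_mod_cast hM1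
  have hVMR : (Fintype.card V : ℝ) ≤ M := by exact_mod_cast hVM
  -- total weight
  have hfib : ∀ I : Finset V, ∑ v ∈ I, wt v =
      ((univ.filter (fun i => ∃ v ∈ I, A i = v.1)).card : ℝ) := by
    intro I
    have h1 : (univ.filter (fun i => ∃ v ∈ I, A i = v.1)) =
        I.biUnion (fun v => univ.filter (fun i => A i = v.1)) := by
      ext i
      simp
    rw [h1, card_biUnion]
    · push_cast; rfl
    · intro v _ w _ hvw
      change Disjoint (univ.filter (fun i => A i = v.1)) (univ.filter (fun i => A i = w.1))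
      rw [disjoint_left]
      intro i hi hi'
      simp only [mem_filter, mem_univ, true_and] at hi hi'
      exact hvw (Subtype.ext (hi.symm.trans hi'))
  have htot : ∑ v, wt v = ((univ.filter P).card : ℝ) := by
    rw [hfib]
    congr 2
    ext i
    simp only [mem_filter, mem_univ, true_and]
    constructor
    · rintro ⟨⟨X, hX1, j, hj⟩, hv⟩
      exact ⟨j, by rw [hv]; exact hj⟩
    · rintro ⟨j, hj⟩
      exact ⟨⟨A i, ⟨i, rfl⟩, ⟨j, hj⟩⟩, rfl⟩
  -- add the isolated vertices
  let iso : Finset (Fin m) := univ.filter (fun i => ¬ P i)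
  let K : Finset (Fin m) := univ.filter (fun i => ∃ v ∈ I₀, A i = v.1)
  have hVcard : (univ.filter P).card + iso.card = m := by
    have := Finset.card_filter_add_card_filter_not (s := (univ : Finset (Fin m))) P
    simpa [iso] using this
  refine ⟨iso ∪ K, ?_, ?_⟩
  · have hdis : Disjoint iso K := by
      rw [disjoint_left]
      intro i hi hi'
      simp only [iso, K, mem_filter, mem_univ, true_and] at hi hi'
      obtain ⟨⟨X, hX1, j, hj⟩, _, hv⟩ := hi'
      exact hi ⟨j, by rw [hv]; exact hj⟩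
    rw [card_union_of_disjoint hdis]
    push_cast
    have hVR : ((univ.filter P).card : ℝ) + iso.card = m := by exact_mod_cast hVcard
    have hisoR : (0 : ℝ) ≤ iso.card := by positivity
    have hE1 : Real.exp (-(2 * Real.log (4 * M) / J ^ 2)) ≤ 1 := by
      apply Real.exp_le_one_iff.2
      have : 0 ≤ Real.log (4 * M) := Real.log_nonneg (by linarith)
      have : 0 ≤ 2 * Real.log (4 * M) / J ^ 2 := by positivity
      linarith
    have h1 : 9 / 256 * ((univ.filter P).card : ℝ) * Real.exp (-(2 * Real.log (4 * M) / J ^ 2)) ≤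
        K.card := by
      have hK : (K.card : ℝ) = ∑ v ∈ I₀, wt v := (hfib I₀).symm
      rw [hK, ← htot]
      refine le_trans ?_ hcore
      rcases Nat.eq_zero_or_pos (Fintype.card V) with h0 | h0
      · have : IsEmpty V := Fintype.card_eq_zero_iff.1 h0
        simp
      · have hw0 : 0 ≤ ∑ v, wt v := sum_nonneg (fun v _ => hwt v)
        generalize (∑ v, wt v) = W at hw0
        apply mul_le_mul_of_nonneg_left _ (mul_nonneg (by norm_num) hw0)
        apply Real.exp_le_exp.2
        have hV1 : (1 : ℝ) ≤ Fintype.card V := by exact_mod_cast h0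
        have h2 : Real.log (4 * Fintype.card V) ≤ Real.log (4 * M) :=
          Real.log_le_log (by positivity) (by linarith)
        have h3 : 2 * Real.log (4 * Fintype.card V) / (J : ℝ) ^ 2 ≤
            2 * Real.log (4 * M) / J ^ 2 := by
          apply div_le_div_of_nonneg_right _ (by positivity)
          linarith
        linarith
    have h4 : 9 / 256 * (iso.card : ℝ) * Real.exp (-(2 * Real.log (4 * M) / J ^ 2)) ≤
        iso.card := by
      have h5 : 9 / 256 * (iso.card : ℝ) * Real.exp (-(2 * Real.log (4 * M) / J ^ 2)) ≤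
          9 / 256 * (iso.card : ℝ) * 1 := mul_le_mul_of_nonneg_left hE1 (by positivity)
      linarith
    calc 9 / 256 * (m : ℝ) * Real.exp (-(2 * Real.log (4 * M) / J ^ 2))
        = 9 / 256 * ((univ.filter P).card : ℝ) * Real.exp (-(2 * Real.log (4 * M) / J ^ 2)) +
          9 / 256 * (iso.card : ℝ) * Real.exp (-(2 * Real.log (4 * M) / J ^ 2)) := by
          rw [← hVR]; ring
      _ ≤ (iso.card : ℝ) + K.card := by linarith
  · intro i hi j hj hij
    by_contra hcon
    push Not at hcon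
    have hiP : P i := ⟨j, hcon⟩
    have hjP : P j := ⟨i, by rw [inter_comm]; exact hcon⟩
    have h1 : ∀ k, P k → k ∈ iso ∪ K → ∃ v ∈ I₀, A k = v.1 := by
      intro k hk hk'
      rcases mem_union.1 hk' with h | h
      · simp only [iso, mem_filter, mem_univ, true_and] at h
        exact absurd hk h
      · simpa only [K, mem_filter, mem_univ, true_and] using h
    obtain ⟨v, hv, hvi⟩ := h1 i hiP hi
    obtain ⟨w, hw, hwj⟩ := h1 j hjP hj
    apply hI₀ v hv w hw
    simp only [adj, ← hvi, ← hwj]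
    exact hcon

/-- `f(n, m, c, ε) ≥ (m/64) M^(-1152 (1/2 - c + ε)^2)` with `M = min (m, 2^n)`. -/
theorem lower_half {n m : ℕ} {c ε : ℝ} (hn : 0 < n) (hm : 0 < m) (hc : c < 1) (hεc : ε ≤ c)
    (hδ : 0 < 1 / 2 - c + ε) :
    1 / 64 * (m : ℝ) * Real.exp (-(1152 * (1 / 2 - c + ε) ^ 2 *
      Real.log (min m (2 ^ n) : ℕ))) ≤ (f n m c ε : ℝ) := by
  have hmR : (1 : ℝ) ≤ m := by exact_mod_cast hm
  have hm0 : (0 : ℝ) < m := by linarith
  have hnR : (0 : ℝ) < n := by exact_mod_cast hn
  set M : ℕ := min m (2 ^ n) with hM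
  have hM1 : 1 ≤ M := le_min hm (Nat.one_le_two_pow)
  have hM1R : (1 : ℝ) ≤ M := by exact_mod_cast hM1
  have hM0 : (0 : ℝ) < M := by linarith
  have hlogM0 : 0 ≤ Real.log M := Real.log_nonneg hM1R
  set δ : ℝ := 1 / 2 - c + ε with hδdef
  apply le_f hn hc
  intro A hA
  rcases le_or_gt 1 (1152 * δ ^ 2) with h1 | h1
  · -- a most popular set
    have hE : Real.exp (-(1152 * δ ^ 2 * Real.log M)) ≤ 1 / M := by
      have h2 : Real.exp (-(1152 * δ ^ 2 * Real.log M)) ≤ Real.exp (-(Real.log M)) := by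
        apply Real.exp_le_exp.2
        nlinarith
      rwa [Real.exp_neg (Real.log M), Real.exp_log hM0, ← one_div] at h2
    have hgoal : 1 / 64 * (m : ℝ) * Real.exp (-(1152 * δ ^ 2 * Real.log M)) ≤
        1 / 64 * (m / M) := by
      calc 1 / 64 * (m : ℝ) * Real.exp (-(1152 * δ ^ 2 * Real.log M))
          ≤ 1 / 64 * (m : ℝ) * (1 / M) := mul_le_mul_of_nonneg_left hE (by positivity)
        _ = 1 / 64 * (m / M) := by ring
    rcases le_total (2 ^ n) m with h | h
    · have hMn : M = 2 ^ n := min_eq_right h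
      obtain ⟨X, -, hX⟩ := Finset.exists_le_card_fiber_of_mul_le_card_of_maps_to
        (s := (univ : Finset (Fin m))) (t := (univ : Finset (Finset (Fin n)))) (f := A)
        (n := m / 2 ^ n) (fun i _ => mem_univ _) ⟨∅, mem_univ _⟩ (by
          simp only [card_univ, Fintype.card_finset, Fintype.card_fin]
          exact Nat.mul_div_le m (2 ^ n))
      refine ⟨univ.filter (fun i => A i = X), ?_, ?_⟩
      · have h2 : (m : ℝ) / 2 ^ n - 1 ≤ ((m / 2 ^ n : ℕ) : ℝ) := by
          have h3 : m < (m / 2 ^ n + 1) * 2 ^ n := by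
            rw [mul_comm]
            exact Nat.lt_mul_div_succ m (by positivity)
          have h4 : (m : ℝ) < ((m / 2 ^ n : ℕ) + 1) * 2 ^ n := by exact_mod_cast h3
          rw [← div_lt_iff₀ (by positivity)] at h4
          linarith
        have h5 : ((m / 2 ^ n : ℕ) : ℝ) ≤ ((univ.filter (fun i => A i = X)).card : ℝ) := by
          exact_mod_cast hX
        have h8 : 1 ≤ m / 2 ^ n := by
          rw [Nat.one_le_div_iff (by positivity)]
          exact h
        have h9 : (1 : ℝ) ≤ ((m / 2 ^ n : ℕ) : ℝ) := by exact_mod_cast h8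
        have h10 : (m : ℝ) / 2 ^ n / 2 ≤ ((m / 2 ^ n : ℕ) : ℝ) := by linarith
        have h11 : (m : ℝ) / M = (m : ℝ) / 2 ^ n := by rw [hMn]; push_cast; rfl
        rw [h11] at hgoal
        have h12 : 0 ≤ (m : ℝ) / 2 ^ n := by positivity
        linarith
      · intro i hi j hj hij
        simp only [mem_filter, mem_univ, true_and] at hi hj
        rw [hi, hj, inter_self]
        have := hA i
        rw [hi] at this
        have h3 : ε * n ≤ c * n := mul_le_mul_of_nonneg_right hεc hnR.le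
        linarith
    · have hMm : M = m := min_eq_left h
      refine ⟨{⟨0, hm⟩}, ?_, ?_⟩
      · simp only [card_singleton, Nat.cast_one]
        have h2 : (m : ℝ) / M = 1 := by rw [hMm]; field_simp
        rw [h2] at hgoal
        linarith
      · intro i hi j hj hij
        simp only [mem_singleton] at hi hj
        exact absurd (hi.trans hj.symm) hij
  · have hδ1 : δ < 1 / 32 := by
      by_contra hcon
      push Not at hcon
      nlinarith
    set x : ℝ := 1 / (16 * δ) with hx
    have hxδ : 16 * δ * x = 1 := by rw [hx]; field_simp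
    have hx2 : 2 < x := by
      by_contra hcon
      push Not at hcon
      nlinarith
    set J : ℕ := ⌊x⌋₊ with hJ
    have hJ1 : (J : ℝ) ≤ x := Nat.floor_le (by linarith)
    have hJ2 : x < J + 1 := Nat.lt_floor_add_one x
    have hJ3 : 2 ≤ J := Nat.le_floor (by push_cast; linarith)
    have hJ3R : (2 : ℝ) ≤ J := by exact_mod_cast hJ3
    have hJpos : 0 < J := by omega
    have hJd : 16 * J * δ ≤ 1 := by
      calc 16 * J * δ = 16 * δ * J := by ring
        _ ≤ 16 * δ * x := mul_le_mul_of_nonneg_left hJ1 (by positivity)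
        _ = 1 := hxδ
    obtain ⟨I, hI, hI'⟩ := inter_large (ε := ε) hn hm hδ hJpos hJd A hA
    refine ⟨I, le_trans ?_ hI, hI'⟩
    -- `J ≥ 1/(24 δ)`
    have hJδ : 1 ≤ 24 * δ * J := by
      rcases le_or_gt (2 * x) 6 with h3 | h3
      · -- `x ≤ 3`
        have : δ * 48 ≥ 1 := by nlinarith
        nlinarith
      · have h4 : 2 / 3 * x ≤ J := by linarith
        have h5 : 24 * δ * (2 / 3 * x) ≤ 24 * δ * J := mul_le_mul_of_nonneg_left h4 (by positivity)
        nlinarith
    have hJ4 : 2 / (J : ℝ) ^ 2 ≤ 1152 * δ ^ 2 := by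
      rw [div_le_iff₀ (by positivity)]
      nlinarith [mul_self_nonneg (24 * δ * J - 1)]
    have hJ5 : 2 / (J : ℝ) ^ 2 ≤ 1 / 2 := by
      rw [div_le_iff₀ (by positivity)]
      nlinarith
    have hexp : Real.exp (-(2 * Real.log (4 * M) / J ^ 2)) =
        Real.exp (-(2 / (J : ℝ) ^ 2 * Real.log 4)) * Real.exp (-(2 / (J : ℝ) ^ 2 * Real.log M)) := by
      rw [← Real.exp_add, Real.log_mul (by norm_num) hM0.ne']
      congr 1
      ring
    have hlog4 : Real.log 4 = 2 * Real.log 2 := by
      rw [show (4 : ℝ) = 2 ^ 2 by norm_num, Real.log_pow]; norm_num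
    have hlog2 : 0 < Real.log 2 := Real.log_pos (by norm_num)
    have he1 : (1 : ℝ) / 2 ≤ Real.exp (-(2 / (J : ℝ) ^ 2 * Real.log 4)) := by
      have h6 : -Real.log 2 ≤ -(2 / (J : ℝ) ^ 2 * Real.log 4) := by
        rw [hlog4]
        nlinarith
      have h7 := Real.exp_le_exp.2 h6
      rw [Real.exp_neg, Real.exp_log (by norm_num)] at h7
      linarith
    have he2 : Real.exp (-(1152 * δ ^ 2 * Real.log M)) ≤
        Real.exp (-(2 / (J : ℝ) ^ 2 * Real.log M)) := by
      apply Real.exp_le_exp.2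
      have h8 : 2 / (J : ℝ) ^ 2 * Real.log M ≤ 1152 * δ ^ 2 * Real.log M :=
        mul_le_mul_of_nonneg_right hJ4 hlogM0
      linarith
    rw [hexp]
    have hp : 0 < Real.exp (-(1152 * δ ^ 2 * Real.log M)) := Real.exp_pos _
    calc 1 / 64 * m * Real.exp (-(1152 * δ ^ 2 * Real.log M))
        ≤ 9 / 256 * m * (1 / 2 * Real.exp (-(1152 * δ ^ 2 * Real.log M))) := by
          have : 0 ≤ (m : ℝ) * Real.exp (-(1152 * δ ^ 2 * Real.log M)) := by positivity
          linarith
      _ ≤ 9 / 256 * m * (Real.exp (-(2 / (J : ℝ) ^ 2 * Real.log 4)) *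
            Real.exp (-(2 / (J : ℝ) ^ 2 * Real.log M))) := by
          apply mul_le_mul_of_nonneg_left _ (by positivity)
          exact mul_le_mul he1 he2 hp.le (Real.exp_pos _).le

/-- The same bound with `M` replaced by `2 ^ min (n, log₂ m)`. -/
theorem lower_half' {n m : ℕ} {c ε : ℝ} (hn : 0 < n) (hm : 0 < m) (hc : c < 1) (hεc : ε ≤ c)
    (hδ : 0 < 1 / 2 - c + ε) :
    1 / 64 * (m : ℝ) * Real.exp (-(800 * (1 / 2 - c + ε) ^ 2 *
      min (n : ℝ) (Real.log m / Real.log 2))) ≤ (f n m c ε : ℝ) := by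
  refine le_trans ?_ (lower_half hn hm hc hεc hδ)
  have hmR : (1 : ℝ) ≤ m := by exact_mod_cast hm
  have hm0 : (0 : ℝ) < m := by linarith
  have hnR : (0 : ℝ) < n := by exact_mod_cast hn
  have hlog2 : 0 < Real.log 2 := Real.log_pos (by norm_num)
  have hlog2' : Real.log 2 < 0.6931471808 := Real.log_two_lt_d9
  apply mul_le_mul_of_nonneg_left _ (by positivity)
  apply Real.exp_le_exp.2
  set μ : ℝ := min (n : ℝ) (Real.log m / Real.log 2) with hμ
  have hlogm : 0 ≤ Real.log m := Real.log_nonneg hmR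
  have hμ0 : 0 ≤ μ := le_min hnR.le (by positivity)
  have hM1 : 1 ≤ min m (2 ^ n) := le_min hm (Nat.one_le_two_pow)
  have hM0 : (0 : ℝ) < ((min m (2 ^ n) : ℕ) : ℝ) := by exact_mod_cast hM1
  have hlogM : Real.log ((min m (2 ^ n) : ℕ) : ℝ) ≤ Real.log 2 * μ := by
    have h5 : Real.log ((min m (2 ^ n) : ℕ) : ℝ) / Real.log 2 ≤ μ := by
      apply le_min
      · rw [div_le_iff₀ hlog2]
        have h6 : ((min m (2 ^ n) : ℕ) : ℝ) ≤ 2 ^ n := by exact_mod_cast min_le_right m (2 ^ n)
        have h7 := Real.log_le_log hM0 h6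
        rwa [Real.log_pow] at h7
      · apply div_le_div_of_nonneg_right _ hlog2.le
        apply Real.log_le_log hM0
        exact_mod_cast min_le_left m (2 ^ n)
    rw [div_le_iff₀ hlog2] at h5
    linarith
  have h9 : (1 / 2 - c + ε) ^ 2 * Real.log ((min m (2 ^ n) : ℕ) : ℝ) ≤
      (1 / 2 - c + ε) ^ 2 * (Real.log 2 * μ) := mul_le_mul_of_nonneg_left hlogM (by positivity)
  have h10 : 0 ≤ (1 / 2 - c + ε) ^ 2 * μ := by positivity
  nlinarith

end Pool.Agent.Lib.MP_cecf76_co.Half
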