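import Mathlib
import Pool.Agent.Lib.MP_cecf76_co.Core

set_option autoImplicit false

/-! The upper bound `f(n, m, c, ε) ≤ 4 m exp (- (ε²/2) min (n/2, log₂ m))` for `c ≤ 1/2`. -/

namespace Pool.Agent.Lib.MP_cecf76_co.Half

open Finset

/-- The set in the model ground set attached to a word `x`. -/
def wmodel {D : ℕ} (w : Fin D → ℕ) (r : ℕ) (x : Fin D → Bool) :
    Finset ((Σ j : Fin D, Fin (w j) × Bool) ⊕ Fin r) :=
  univ.filter (fun p => Sum.elim (fun p => decide (x p.1 = p.2.2)) (fun _ => true) p = true)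

lemma card_wmodel_inter {D : ℕ} (w : Fin D → ℕ) (r : ℕ) (x y : Fin D → Bool) :
    (wmodel w r x ∩ wmodel w r y).card = (∑ j, if x j = y j then w j else 0) + r := by
  have h1 : wmodel w r x ∩ wmodel w r y =
      univ.filter (fun p : (Σ j : Fin D, Fin (w j) × Bool) ⊕ Fin r =>
      Sum.elim (fun p => decide (x p.1 = p.2.2 ∧ y p.1 = p.2.2)) (fun _ => true) p = true) := by
    ext p
    rcases p with p | p <;> simp [wmodel]
  rw [h1, Finset.card_filter, Fintype.sum_sum_type]
  simp only [Sum.elim_inl, Sum.elim_inr, decide_eq_true_eq, if_true, Finset.sum_const,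
    Finset.card_univ, Fintype.card_fin, smul_eq_mul, mul_one]
  congr 1
  rw [Fintype.sum_sigma]
  apply Finset.sum_congr rfl
  intro j _
  rw [Fintype.sum_prod_type]
  simp only [Fintype.sum_bool]
  rcases Bool.eq_false_or_eq_true (x j) with h2 | h2 <;>
    rcases Bool.eq_false_or_eq_true (y j) with h3 | h3 <;> simp [h2, h3]

lemma card_wmodel {D : ℕ} (w : Fin D → ℕ) (r : ℕ) (x : Fin D → Bool) :
    (wmodel w r x).card = (∑ j, w j) + r := by
  have h := card_wmodel_inter w r x x
  rw [Finset.inter_self] at h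
  rw [h]
  simp

/-- Core upper bound, for `n` down to `2 D + 1`. -/
theorem upper_core_fine {n m D : ℕ} {c ε : ℝ} (hD : 0 < D) (hc : c ≤ 1 / 2) (hε : 0 < ε)
    (hε1 : ε ≤ 1) (hDn : 2 * D + 1 ≤ n) (hDm : 2 ^ D ≤ m) :
    (f n m c ε : ℝ) ≤ 2 * m * Real.exp (-(ε ^ 2 * D / 2 - ε)) := by
  classical
  have hDR : (0 : ℝ) < D := by exact_mod_cast hD
  have hn : 0 < n := by omega
  have hnR : (0 : ℝ) < n := by exact_mod_cast hn
  obtain ⟨q, e, r, hq, he, hr1, hr2, hqr⟩ : ∃ q e r : ℕ, 1 ≤ q ∧ e ≤ D ∧ 1 ≤ r ∧ r ≤ 2 ∧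
      n = 2 * (D * q + e) + r := by
    refine ⟨(n - 1) / (2 * D), (n - 1) % (2 * D) / 2, (n - 1) % (2 * D) % 2 + 1, ?_, ?_, by omega,
      by omega, ?_⟩
    · rw [Nat.one_le_div_iff (by omega)]; omega
    · have := Nat.mod_lt (n - 1) (show 0 < 2 * D by omega)
      omega
    · have h1 := Nat.div_add_mod (n - 1) (2 * D)
      have h2 : 2 * D * ((n - 1) / (2 * D)) = 2 * (D * ((n - 1) / (2 * D))) := by ring
      omega
  -- the weights
  let w : Fin D → ℕ := fun j => q + if j.val < e then 1 else 0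
  have hwsum : ∑ j, w j = D * q + e := by
    simp only [w, Finset.sum_add_distrib, Finset.sum_const, Finset.card_univ, Fintype.card_fin,
      smul_eq_mul]
    congr 1
    rw [← Finset.card_filter]
    have h1 : (univ.filter (fun j : Fin D => j.val < e)).card = (Finset.range e).card := by
      apply Finset.card_bij (fun j _ => j.val)
      · intro j hj; simpa using hj
      · intro a _ b _ h; exact Fin.ext h
      · intro b hb
        have hb' : b < e := by simpa using hb
        exact ⟨⟨b, by omega⟩, by simpa using hb', rfl⟩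
    rw [h1, card_range]
  have hwD : ∀ j, (w j : ℝ) * D ≤ n := by
    intro j
    have h1 : w j ≤ 2 * q := by simp only [w]; split <;> omega
    have h2 : w j * D ≤ n := by
      calc w j * D ≤ 2 * q * D := Nat.mul_le_mul_right _ h1
        _ = 2 * (D * q) := by ring
        _ ≤ n := by omega
    exact_mod_cast h2
  have ecard : Fintype.card (Fin n) =
      Fintype.card ((Σ j : Fin D, Fin (w j) × Bool) ⊕ Fin r) := by
    simp only [Fintype.card_fin, Fintype.card_sum, Fintype.card_sigma, Fintype.card_prod,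
      Fintype.card_bool]
    rw [← Finset.sum_mul, hwsum]
    omega
  let eq : (Σ j : Fin D, Fin (w j) × Bool) ⊕ Fin r ≃ Fin n := (Fintype.equivOfCardEq ecard).symm
  have ecard' : Fintype.card (Fin (2 ^ D)) = Fintype.card (Fin D → Bool) := by simp
  let e' : Fin (2 ^ D) ≃ (Fin D → Bool) := Fintype.equivOfCardEq ecard'
  have hN : 0 < 2 ^ D := by positivity
  let h : Fin m → (Fin D → Bool) := fun i => e' ⟨i.val % 2 ^ D, Nat.mod_lt _ hN⟩
  let A : Fin m → Finset (Fin n) := fun i => (wmodel w r (h i)).map eq.toEmbedding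
  have hAcard : ∀ i, (A i).card = D * q + e + r := by
    intro i
    simp only [A, Finset.card_map, card_wmodel, hwsum]
  have hAinter : ∀ i j, (A i ∩ A j).card = (∑ k, if h i k = h j k then w k else 0) + r := by
    intro i j
    simp only [A, ← Finset.map_inter, Finset.card_map, card_wmodel_inter]
  have hnqR : (n : ℝ) = 2 * (D * q + e) + r := by rw [hqr]; push_cast; ring
  have hr1R : (1 : ℝ) ≤ r := by exact_mod_cast hr1
  have hr2R : (r : ℝ) ≤ 2 := by exact_mod_cast hr2
  apply f_le _ A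
  · intro i
    rw [hAcard i]
    push_cast
    have : c * n ≤ 1 / 2 * n := mul_le_mul_of_nonneg_right hc hnR.le
    rw [hnqR] at this ⊢
    nlinarith
  intro I hI
  set F := I.image h with hF
  have hDnR : 2 * (D : ℝ) ≤ n := by
    have : 2 * (D : ℝ) + 1 ≤ n := by exact_mod_cast hDn
    linarith
  set t := ⌈ε * D - 2 * D / n⌉₊ with ht
  have htD : t ≤ D := by
    apply Nat.ceil_le.2
    have : 0 ≤ 2 * (D : ℝ) / n := by positivity
    nlinarith
  have hagree : ∀ x ∈ F, ∀ y ∈ F, t ≤ agree x y := by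
    intro x hx y hy
    by_cases hxy : x = y
    · subst hxy
      have : agree x x = D := by simp [agree]
      rw [this]; exact htD
    obtain ⟨i, hi, rfl⟩ := Finset.mem_image.1 hx
    obtain ⟨j, hj, rfl⟩ := Finset.mem_image.1 hy
    have hij : i ≠ j := by rintro rfl; exact hxy rfl
    have h1 := hI i hi j hj hij
    rw [hAinter i j] at h1
    push_cast at h1
    apply Nat.ceil_le.2
    set g : ℝ := (agree (h i) (h j) : ℝ) with hg
    have hg0 : 0 ≤ g := by positivity
    have h2 : (∑ k, if h i k = h j k then (w k : ℝ) else 0) * D ≤ n * g := by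
      rw [hg]
      simp only [agree]
      push_cast
      rw [Finset.sum_mul, Finset.mul_sum]
      apply Finset.sum_le_sum
      intro k _
      split
      · have := hwD k; linarith
      · simp
    by_contra hcon
    push Not at hcon
    have h3 : (n : ℝ) * g ≤ n * (ε * D - 2 * D / n) := mul_le_mul_of_nonneg_left hcon.le hnR.le
    have h4 : (ε * n - 2) * D < (∑ k, if h i k = h j k then (w k : ℝ) else 0) * D :=
      mul_lt_mul_of_pos_right (by linarith) hDR
    have h5 : (n : ℝ) * (ε * D - 2 * D / n) = (ε * n - 2) * D := by field_simp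
    linarith
  have hFb := family_bound hD F t hagree
  -- fibres
  have hfib : ∀ a ∈ F, (I.filter (fun i => h i = a)).card ≤ m / 2 ^ D + 1 := by
    intro a _
    have h1 : (I.filter (fun i => h i = a)).card ≤ (Finset.range (m / 2 ^ D + 1)).card := by
      apply Finset.card_le_card_of_injOn (fun i => i.val / 2 ^ D)
      · intro i _
        simp only [Finset.coe_range, Set.mem_Iio]
        have := Nat.div_le_div_right (c := 2 ^ D) i.isLt.le
        omega
      · intro i hi j hj hij
        simp only [Finset.coe_filter, Set.mem_ofPred_eq] at hi hj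
        have h2 : h i = h j := by rw [hi.2, hj.2]
        have h3 : i.val % 2 ^ D = j.val % 2 ^ D := by
          have := e'.injective h2
          simpa using this
        apply Fin.ext
        rw [← Nat.div_add_mod i.val (2 ^ D), ← Nat.div_add_mod j.val (2 ^ D), h3]
        congr 2
    simpa using h1
  have hcardI : I.card ≤ (m / 2 ^ D + 1) * F.card :=
    Finset.card_le_mul_card_image (f := h) I (m / 2 ^ D + 1) hfib
  have hcardI' : (I.card : ℝ) ≤ (2 * m / 2 ^ D) * F.card := by
    have h1 : (I.card : ℝ) ≤ ((m / 2 ^ D + 1 : ℕ) : ℝ) * F.card := by exact_mod_cast hcardI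
    refine h1.trans (mul_le_mul_of_nonneg_right ?_ (by positivity))
    push_cast
    have h2 : (((m / 2 ^ D : ℕ)) : ℝ) ≤ (m : ℝ) / 2 ^ D := by
      have := Nat.cast_div_le (α := ℝ) (m := m) (n := 2 ^ D)
      push_cast at this
      exact this
    have h3 : (1 : ℝ) ≤ (m : ℝ) / 2 ^ D := by
      rw [one_le_div (by positivity)]
      exact_mod_cast hDm
    have h4 : 2 * (m : ℝ) / 2 ^ D = (m : ℝ) / 2 ^ D + (m : ℝ) / 2 ^ D := by ring
    rw [h4]
    linarith
  calc (I.card : ℝ) ≤ (2 * m / 2 ^ D) * F.card := hcardI'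
    _ ≤ (2 * m / 2 ^ D) * (2 ^ D * Real.exp (-((t : ℝ) ^ 2 / (2 * D)))) :=
        mul_le_mul_of_nonneg_left hFb (by positivity)
    _ = 2 * m * Real.exp (-((t : ℝ) ^ 2 / (2 * D))) := by field_simp
    _ ≤ 2 * m * Real.exp (-(ε ^ 2 * D / 2 - ε)) := by
        apply mul_le_mul_of_nonneg_left _ (by positivity)
        apply Real.exp_le_exp.2
        have h1 : ε * D - 2 * D / n ≤ t := Nat.le_ceil _
        have h0 : 2 * (D : ℝ) / n ≤ 1 := by rw [div_le_one hnR]; exact hDnR
        have h00 : 0 ≤ 2 * (D : ℝ) / n := by positivity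
        have ht0 : (0 : ℝ) ≤ t := by positivity
        have h3 : ε ^ 2 * D / 2 - ε ≤ (t : ℝ) ^ 2 / (2 * D) := by
          rw [le_div_iff₀ (by positivity)]
          -- `(ε² D/2 - ε) 2D = ε² D² - 2 ε D ≤ t²`
          have h4 : (ε ^ 2 * D / 2 - ε) * (2 * D) = (ε * D) ^ 2 - 2 * (ε * D) := by ring
          rw [h4]
          rcases le_or_gt (ε * D) (2 * D / n) with h5 | h5
          · have h6 : 0 ≤ ε * D := by positivity
            nlinarith
          · nlinarith
        linarith

/-- The upper bound `f(n, m, c, ε) ≤ 4 m exp (- (ε²/2) min (n/2, log₂ m))` for `c ≤ 1/2`. -/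
theorem upper_fine {n m : ℕ} {c ε : ℝ} (hn : 0 < n) (hm : 0 < m) (hc : c ≤ 1 / 2) (hε : 0 < ε)
    (hε1 : ε ≤ 1 / 2) :
    (f n m c ε : ℝ) ≤
      4 * m * Real.exp (-(ε ^ 2 / 2 * min ((n : ℝ) / 2) (Real.log m / Real.log 2))) := by
  have hnR : (0 : ℝ) < n := by exact_mod_cast hn
  have hn1 : (1 : ℝ) ≤ n := by exact_mod_cast hn
  have hmR : (1 : ℝ) ≤ m := by exact_mod_cast hm
  have hlog2 : 0 < Real.log 2 := Real.log_pos (by norm_num)
  have hlogm : 0 ≤ Real.log m := Real.log_nonneg hmR
  set ν := min ((n : ℝ) / 2) (Real.log m / Real.log 2) with hν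
  have hν0 : 0 ≤ ν := le_min (by positivity) (by positivity)
  have hε2 : ε ^ 2 ≤ 1 / 4 := by nlinarith
  set μ := min (Real.log m / Real.log 2) (((n : ℝ) - 1) / 2) with hμ
  have hμ0 : 0 ≤ μ := le_min (by positivity) (by linarith)
  have hμν : ν - 1 / 2 ≤ μ := by
    apply le_min
    · have h5 : ν ≤ Real.log m / Real.log 2 := min_le_right _ _
      linarith
    · have h5 : ν ≤ (n : ℝ) / 2 := min_le_left _ _
      linarith
  set D := ⌊μ⌋₊ with hD
  have hDμ : (D : ℝ) ≤ μ := Nat.floor_le hμ0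
  have hμD : μ < D + 1 := Nat.lt_floor_add_one μ
  rcases Nat.eq_zero_or_pos D with hD0 | hD0
  · have h1 : μ < 1 := by rw [hD0] at hμD; simpa using hμD
    have h5 : ν ≤ 3 / 2 := by linarith
    have hx : ε ^ 2 / 2 * ν ≤ 3 / 4 := by nlinarith
    have h2 : (f n m c ε : ℝ) ≤ m := by exact_mod_cast (f_mem n m c ε).1
    have h3 : 1 ≤ 4 * Real.exp (-(ε ^ 2 / 2 * ν)) := by
      have := Real.add_one_le_exp (-(ε ^ 2 / 2 * ν))
      linarith
    calc (f n m c ε : ℝ) ≤ m := h2
      _ = m * 1 := by ring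
      _ ≤ m * (4 * Real.exp (-(ε ^ 2 / 2 * ν))) := mul_le_mul_of_nonneg_left h3 (by positivity)
      _ = _ := by ring
  · have hDn : 2 * D + 1 ≤ n := by
      have h5 : (D : ℝ) ≤ ((n : ℝ) - 1) / 2 := hDμ.trans (min_le_right _ _)
      have h6 : (2 * (D : ℝ) + 1) ≤ n := by linarith
      exact_mod_cast h6
    have hDm : 2 ^ D ≤ m := by
      have h1 : (D : ℝ) ≤ Real.log m / Real.log 2 := hDμ.trans (min_le_left _ _)
      rw [le_div_iff₀ hlog2, ← Real.log_pow] at h1
      have h2 : ((2 : ℝ)) ^ D ≤ m := (Real.log_le_log_iff (by positivity) (by linarith)).1 h1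
      exact_mod_cast h2
    refine (upper_core_fine hD0 hc hε (by linarith) hDn hDm).trans ?_
    have h5 : -(ε ^ 2 * D / 2 - ε) ≤ Real.log 2 + -(ε ^ 2 / 2 * ν) := by
      have h6 : ν - 3 / 2 ≤ D := by linarith
      have h7 : ε ^ 2 * (ν - 3 / 2) ≤ ε ^ 2 * D := mul_le_mul_of_nonneg_left h6 (by positivity)
      have h8 : (0.6931471803 : ℝ) < Real.log 2 := Real.log_two_gt_d9
      nlinarith
    have h9 := Real.exp_le_exp.2 h5
    rw [Real.exp_add, Real.exp_log (by norm_num)] at h9
    calc 2 * (m : ℝ) * Real.exp (-(ε ^ 2 * D / 2 - ε))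
        ≤ 2 * m * (2 * Real.exp (-(ε ^ 2 / 2 * ν))) :=
          mul_le_mul_of_nonneg_left h9 (by positivity)
      _ = _ := by ring

end Pool.Agent.Lib.MP_cecf76_co.Half
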